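import Pool.Agent.E8helper59.SD.Red
import Pool.Agent.NPC.Dec

/-!
# Graphs of separation dimension at most two are contact graphs of rectangles with redundant
vertices

The definitions used by the theorem:

* `SepDimLE G k` (in `Pool.Agent.E8helper59.SD.Main`): there are `k` linear orders of the vertices
  of `G` such that any two disjoint edges of `G` are separated by one of them, i.e. `π(G) ≤ k`.
* `RectContact G` (in `Pool.Agent.E8helper59.SD.Rect`): `G` is a spanning subgraph of a contact
  graph of rectangles, i.e. the vertices of `G` can be represented by closed axis-parallel rectangles
  of the plane with pairwise disjoint interiors such that the rectangles of adjacent vertices touch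
  along a segment of positive length.
* `Redundant G v` (in `Pool.Agent.E8helper59.SD.Main`): all the neighbours of `v` are ends of one
  edge `bc` of `G` that does not contain `v`.
* `withPendants G` (in `Pool.Agent.E8helper59.SD.Red`): the graph `G` with a new vertex of degree one
  attached to every vertex.
* `Reduces`, `InP` (in `Pool.Agent.NPC.Defs`, `Pool.Agent.NPC.Classes`): polynomial-time many-one
  reducibility and the class `P`, for languages of bit strings, polynomial time being Mathlib's
  `Turing.TM2ComputableInPolyTime`.  Graphs are given by adjacency matrices (`matGraph`).

The class `RectContact` is, by a theorem of Thomassen (1986), the class of the proper subgraphs of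
`4`-connected planar triangulations, and is recognizable in linear time.
-/

set_option autoImplicit false

namespace Pool.Agent.Results.MP_cdcb37_lc.RectangleContactH59

open Pool.Agent.E8helper59.SD Pool.Agent.NPC Pool.Agent.H622R2

/-- The problem `SD₂`: given a graph, is its separation dimension at most two? -/
def SD2 : Set (List Bool) := lang fun M : List (List Bool) => SepDimLE (matGraph M) 2

/-- The recognition of subgraphs of contact graphs of rectangles. -/
def RC : Set (List Bool) := lang fun M : List (List Bool) => RectContact (matGraph M)

/-- **Theorem.**
1. Let `G` be a finite graph and let `S` be a maximal independent set of the subgraph induced by the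
   redundant vertices of `G`.  Then `π(G) ≤ 2` if and only if `G - S` is a (weak) contact graph of
   rectangles.
2. A finite graph `G` is a (weak) contact graph of rectangles if and only if the graph obtained from
   it by attaching a pendant vertex to every vertex has separation dimension at most two.
3. Hence `SD₂` and the recognition of (weak) contact graphs of rectangles are equivalent under
   polynomial-time many-one reductions, and one of them is in `P` if and only if the other is. -/
theorem result :
    (∀ (V : Type) [Finite V] (G : SimpleGraph V) (S : Set V), (∀ v ∈ S, Redundant G v) →
      (∀ u ∈ S, ∀ v ∈ S, ¬ G.Adj u v) →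
      (∀ v, Redundant G v → v ∉ S → ∃ u ∈ S, G.Adj v u) →
      (SepDimLE G 2 ↔ RectContact (G.induce (Sᶜ : Set V)))) ∧
    (∀ (V : Type) [Finite V] (G : SimpleGraph V),
      RectContact G ↔ SepDimLE (withPendants G) 2) ∧
    Reduces SD2 RC ∧ Reduces RC SD2 ∧ (InP SD2 ↔ InP RC) := by
  refine ⟨fun V _ G S h1 h2 h3 => sepDim_iff G S h1 h2 h3, fun V _ G => sepDim_withPendants G,
    reduces_core, reduces_pend, ?_⟩
  exact ⟨fun h => InP.of_reduces reduces_pend h, fun h => InP.of_reduces reduces_core h⟩

end Pool.Agent.Results.MP_cdcb37_lc.RectangleContactH59
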