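import Pool.Agent.E8helper59.PT.Alg

/-!
# Graphs of separation dimension at most two are recognized in polynomial time

The definitions used by the theorem:

* `SepDimLE G k` (in `Pool.Agent.E8helper59.SD.Main`): there are `k` linear orders of the vertices
  of `G` such that any two disjoint edges of `G` are separated by one of them, i.e. `π(G) ≤ k`.
* `matGraph M` (in `Pool.Agent.H622R2.MatGraph`): the graph with the vertices `0, …, n - 1` given by
  the adjacency matrix `M` with `n` rows.
* `lang`, `InP` (in `Pool.Agent.NPC.Defs`, `Pool.Agent.NPC.Classes`): the language of the codes of the
  yes-instances, and the class `P` of the languages of bit strings decided in polynomial time, where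
  polynomial time is Mathlib's `Turing.TM2ComputableInPolyTime`.

The proof.  (1) `π(G) ≤ 2` if and only if `G` minus a maximal independent set of redundant vertices is
a (weak) contact graph of rectangles (`Pool.Agent.E8helper59.SD`).  (2) A graph `G` with at least three
vertices is a (weak) contact graph of rectangles if and only if the incidence graph of its vertices,
edges and triangles is planar and, in every component, some conditions on the numbers of triangles at
the edges leaving cut vertices hold (`rect_iff` in `Pool.Agent.E8helper59.PT.Loc`).  Planarity enters
through a system of linear equations over `ℤ/2`, which is shown to be solvable if and only if there is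
a planar rotation (an algebraic form of the strong Hanani–Tutte theorem, proved here with normal
spanning forests and left-right colourings), and is solved by Gaussian elimination.
-/

set_option autoImplicit false

namespace Pool.Agent.Results.MP_cdcb37_lc.SepDimTwoInPH59

open Pool.Agent.E8helper59.SD Pool.Agent.NPC Pool.Agent.H622R2

/-- The problem `SD₂`: given a graph, is its separation dimension at most two? -/
def SD2 : Set (List Bool) := lang fun M : List (List Bool) => SepDimLE (matGraph M) 2

/-- **Theorem.** `SD₂` is in `P`: there is a deterministic polynomial-time algorithm which decides
whether the separation dimension of a given graph is at most two. -/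
theorem result : InP SD2 := Pool.Agent.E8helper59.PT.sepDim_inP

end Pool.Agent.Results.MP_cdcb37_lc.SepDimTwoInPH59
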